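import Pool.Agent.helper97.KR.Spec

/-!
# Project KR, row I4
-/

set_option autoImplicit false

namespace Pool.Agent.helper97.KR

open Finset Classical

noncomputable section

/-- replace `x1` by `z` -/
def I4_g {E : Type} (x1 z : E) (e : E) : E := if e = x1 then z else e

theorem I4_img_not {E : Type} (x1 z : E) (W : Set E) (h : x1 ∉ W) : I4_g x1 z '' W = W := by
  ext e
  constructor
  · rintro ⟨w, hw, rfl⟩
    have : w ≠ x1 := fun h' => h (h' ▸ hw)
    simp only [I4_g, if_neg this]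
    exact hw
  · intro he
    have : e ≠ x1 := fun h' => h (h' ▸ he)
    exact ⟨e, he, by simp only [I4_g, if_neg this]⟩

theorem I4_img_mem {E : Type} (x1 z : E) (W : Set E) (h : x1 ∈ W) :
    I4_g x1 z '' W = insert z (W \ {x1}) := by
  ext e
  rw [Set.mem_insert_iff]
  constructor
  · rintro ⟨w, hw, rfl⟩
    by_cases hx : w = x1
    · left; simp only [I4_g, if_pos hx]
    · right
      simp only [I4_g, if_neg hx]
      exact ⟨hw, hx⟩
  · rintro (he | ⟨he, hx⟩)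
    · exact ⟨x1, h, by simp only [I4_g, if_true]; exact he.symm⟩
    · exact ⟨e, he, by
        have hx' : e ≠ x1 := hx
        simp only [I4_g, if_neg hx']⟩

theorem I4_core (V E : Type) (ends : E → Sym2 V) (S : Finset V) (F : Finset E) (v a b : V) (x1 x2 u2 u3 : E)
    (hINS : INS_stmt) (hCN4 : CN4_stmt) (hD : D4 ends S F v a b x1 x2 u2 u3) (m : ℤ) (hm : 1 ≤ m)
    (c : ℤ → E) (hper : ∀ j, c (j + 3 * m) = c j)
    (hbij : Set.BijOn c (Set.Ico 0 (3 * m)) ((F \ {x2, u2, u3} : Finset E) : Set E))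
    (hwin : ∀ j, Con (Function.update ends x1 s(a, b)) (S.erase v) (c '' Set.Ico j (j + m)))
    (hx1 : ∀ j, c j = x1 ↔ 3 * m ∣ j + 1) :
    ∃ e : ℤ → E, (∀ j, e (j + 3 * (m + 1)) = e j) ∧
      Set.BijOn e (Set.Ico 0 (3 * (m + 1))) (F : Set E) ∧
      ∀ j, Con ends S (e '' Set.Ico j (j + (m + 1))) := by
  have hg := hD.g
  have hins : insert v (S.erase v) = S := Finset.insert_erase hD.vS
  have haS : a ∈ S.erase v := Finset.mem_erase.mpr ⟨hD.av, hD.aS⟩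
  have hbS : b ∈ S.erase v := Finset.mem_erase.mpr ⟨hD.bv, hD.bS⟩
  have hvS : v ∉ S.erase v := Finset.notMem_erase v S
  have hend : ∀ y, (y = x1 ∨ y = x2 ∨ y = u2 ∨ y = u3) → ∃ w ∈ S.erase v, ends y = s(v, w) := by
    intro y hy
    obtain ⟨hyF, hvy⟩ := (hD.all y).mpr hy
    obtain ⟨w, hw⟩ := Sym2.mem_iff_exists.mp hvy
    have hwS : w ∈ S := hg.sub y hyF w (by rw [hw]; exact Sym2.mem_mk_right v w)
    have hwv : w ≠ v := by
      rintro rfl
      apply hg.loop y hyF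
      rw [hw]
      exact Sym2.mk_isDiag_iff.mpr rfl
    exact ⟨w, Finset.mem_erase.mpr ⟨hwv, hwS⟩, hw⟩
  -- (i)
  have c1 : ∀ y, (y = x1 ∨ y = x2 ∨ y = u2 ∨ y = u3) → ∀ W : Set E,
      Con (Function.update ends x1 s(a, b)) (S.erase v) W → x1 ∉ W → Con ends S (insert y W) := by
    intro y hy W hW hxW
    obtain ⟨w, hwS, hw⟩ := hend y hy
    have := (hCN4 V E ends (S.erase v) v a b w x1 x2 y W hvS haS hbS hwS hD.e1 hD.e2 hw hW).1 hxW
    rwa [hins] at this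
  -- (ii)
  have c2 : ∀ W : Set E, Con (Function.update ends x1 s(a, b)) (S.erase v) W → x1 ∈ W →
      Con ends S (insert x2 W) := by
    intro W hW hxW
    have := (hCN4 V E ends (S.erase v) v a b a x1 x2 x1 W hvS haS hbS haS hD.e1 hD.e2 hD.e1 hW).2.1 hxW
    rwa [hins] at this
  -- the choice
  have hW0x : x1 ∈ c '' Set.Ico (2 * m) (2 * m + m) := by
    refine ⟨3 * m - 1, ⟨by omega, by omega⟩, (hx1 _).mpr ?_⟩
    rw [sub_add_cancel]
  have c3 : ∃ z z' : E, ((z = x1 ∧ z' = x2) ∨ (z = x2 ∧ z' = x1)) ∧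
      Con ends S (insert u3 (insert z (c '' Set.Ico (2 * m) (2 * m + m) \ {x1}))) := by
    obtain ⟨w, hwS, hw⟩ := hend u3 (Or.inr (Or.inr (Or.inr rfl)))
    have := (hCN4 V E ends (S.erase v) v a b w x1 x2 u3 _ hvS haS hbS hwS hD.e1 hD.e2 hw (hwin (2 * m))).2.2 hW0x
    rw [hins] at this
    rcases this with h | h
    · exact ⟨x1, x2, Or.inl ⟨rfl, rfl⟩, h⟩
    · exact ⟨x2, x1, Or.inr ⟨rfl, rfl⟩, h⟩
  obtain ⟨z, z', hzz, hz3⟩ := c3
  have hx1F : x1 ∈ F := ((hD.all x1).mpr (Or.inl rfl)).1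
  have hx2F : x2 ∈ F := ((hD.all x2).mpr (Or.inr (Or.inl rfl))).1
  have hu2F : u2 ∈ F := ((hD.all u2).mpr (Or.inr (Or.inr (Or.inl rfl)))).1
  have hu3F : u3 ∈ F := ((hD.all u3).mpr (Or.inr (Or.inr (Or.inr rfl)))).1
  have n12 := hD.n12
  have n13 := hD.n13
  have n14 := hD.n14
  have n23 := hD.n23
  have n24 := hD.n24
  have n34 := hD.n34
  have hF' : ∀ e, e ∈ ((F \ {x2, u2, u3} : Finset E) : Set E) ↔ e ∈ F ∧ e ≠ x2 ∧ e ≠ u2 ∧ e ≠ u3 := by
    intro e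
    simp only [Finset.coe_sdiff, Set.mem_diff, Finset.mem_coe, Finset.mem_insert, Finset.mem_singleton]
    tauto
  set A : Set E := I4_g x1 z '' ((F \ {x2, u2, u3} : Finset E) : Set E) with hA
  have hx1F' : x1 ∈ ((F \ {x2, u2, u3} : Finset E) : Set E) := (hF' x1).mpr ⟨hx1F, n12, n13, n14⟩
  have hAeq : A = insert z (((F \ {x2, u2, u3} : Finset E) : Set E) \ {x1}) := I4_img_mem x1 z _ hx1F'
  have hAmem : ∀ e, e ∈ A ↔ e = z ∨ (e ∈ F ∧ e ≠ x2 ∧ e ≠ u2 ∧ e ≠ u3 ∧ e ≠ x1) := by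
    intro e
    rw [hAeq, Set.mem_insert_iff, Set.mem_diff, hF' e, Set.mem_singleton_iff]
    tauto
  have hginj : Set.InjOn (I4_g x1 z) ((F \ {x2, u2, u3} : Finset E) : Set E) := by
    intro e he e' he' hee
    rw [hF'] at he he'
    unfold I4_g at hee
    by_cases h1 : e = x1 <;> by_cases h2 : e' = x1
    · rw [h1, h2]
    · rw [if_pos h1, if_neg h2] at hee
      exfalso
      rcases hzz with ⟨hz, _⟩ | ⟨hz, _⟩
      · exact h2 (hee.symm.trans hz)
      · exact he'.2.1 (hee.symm.trans hz)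
    · rw [if_neg h1, if_pos h2] at hee
      exfalso
      rcases hzz with ⟨hz, _⟩ | ⟨hz, _⟩
      · exact h1 (hee.trans hz)
      · exact he.2.1 (hee.trans hz)
    · rw [if_neg h1, if_neg h2] at hee
      exact hee
  have hbij' : Set.BijOn (I4_g x1 z ∘ c) (Set.Ico 0 (3 * m)) A := (hginj.bijOn_image).comp hbij
  have hper' : ∀ j, (I4_g x1 z ∘ c) (j + 3 * m) = (I4_g x1 z ∘ c) j := by
    intro j
    show I4_g x1 z (c (j + 3 * m)) = I4_g x1 z (c j)
    rw [hper]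
  have hz'A : z' ∉ A := by
    rw [hAmem]
    rcases hzz with ⟨h1, h2⟩ | ⟨h1, h2⟩
    · rintro (h | h)
      · exact n12 (h1 ▸ h2 ▸ h.symm)
      · exact h.2.1 h2
    · rintro (h | h)
      · exact n12 (h1 ▸ h2 ▸ h)
      · exact h.2.2.2.2 h2
  have hu2A : u2 ∉ A := by
    rw [hAmem]
    rintro (h | h)
    · rcases hzz with ⟨h1, h2⟩ | ⟨h1, h2⟩
      · exact n13 (h1 ▸ h.symm)
      · exact n23 (h1 ▸ h.symm)
    · exact h.2.2.1 rfl
  have hu3A : u3 ∉ A := by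
    rw [hAmem]
    rintro (h | h)
    · rcases hzz with ⟨h1, h2⟩ | ⟨h1, h2⟩
      · exact n14 (h1 ▸ h.symm)
      · exact n24 (h1 ▸ h.symm)
    · exact h.2.2.2.1 rfl
  have hz'u2 : z' ≠ u2 := by
    rcases hzz with ⟨h1, h2⟩ | ⟨h1, h2⟩ <;> rw [h2] <;> assumption
  have hz'u3 : z' ≠ u3 := by
    rcases hzz with ⟨h1, h2⟩ | ⟨h1, h2⟩ <;> rw [h2] <;> assumption
  obtain ⟨e, he1, he2, he3⟩ := hINS E m (I4_g x1 z ∘ c) A z' u2 u3 hm hper' hbij' hz'A hu2A hu3A hz'u2 hz'u3 n34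
  have hAF : A ∪ {z', u2, u3} = (F : Set E) := by
    ext y
    rw [Set.mem_union, hAmem, Set.mem_insert_iff, Set.mem_insert_iff, Set.mem_singleton_iff, Finset.mem_coe]
    constructor
    · rintro ((h | h) | h | h | h)
      · rcases hzz with ⟨h1, h2⟩ | ⟨h1, h2⟩ <;> rw [h, h1] <;> assumption
      · exact h.1
      · rcases hzz with ⟨h1, h2⟩ | ⟨h1, h2⟩ <;> rw [h, h2] <;> assumption
      · rw [h]; exact hu2F
      · rw [h]; exact hu3F
    · intro hy
      rcases hzz with ⟨h1, h2⟩ | ⟨h1, h2⟩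
      · rw [h1, h2]; tauto
      · rw [h1, h2]; tauto
  refine ⟨e, he1, by rw [← hAF]; exact he2, ?_⟩
  intro j
  have himg : ∀ i, (I4_g x1 z ∘ c) '' Set.Ico i (i + m) = I4_g x1 z '' (c '' Set.Ico i (i + m)) := fun i =>
    Set.image_comp _ _ _
  have hnot : ∀ i, 0 ≤ i → i < 2 * m → x1 ∉ c '' Set.Ico i (i + m) := by
    rintro i hi0 hi1 ⟨k, ⟨hk1, hk2⟩, hk⟩
    have h1 := (hx1 k).mp hk
    have h2 := Int.le_of_dvd (by omega) h1
    omega
  obtain ⟨i, ⟨hi1, hi2, hi⟩ | ⟨hi1, hi2, hi⟩ | ⟨hi1, hi2, hi⟩⟩ := he3 j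
  · rw [hi, himg]
    by_cases hx : x1 ∈ c '' Set.Ico i (i + m)
    · rw [I4_img_mem _ _ _ hx]
      have h1 := c2 _ (hwin i) hx
      have h2 : insert z' (insert z (c '' Set.Ico i (i + m) \ {x1})) = insert x2 (c '' Set.Ico i (i + m)) := by
        have h3 : insert x1 (c '' Set.Ico i (i + m) \ {x1}) = c '' Set.Ico i (i + m) := by
          rw [Set.insert_diff_singleton, Set.insert_eq_of_mem hx]
        rcases hzz with ⟨h4, h5⟩ | ⟨h4, h5⟩
        · rw [h4, h5, h3]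
        · rw [h4, h5, Set.insert_comm, h3]
      rw [h2]; exact h1
    · rw [I4_img_not _ _ _ hx]
      apply c1 z' _ _ (hwin i) hx
      rcases hzz with ⟨_, h5⟩ | ⟨_, h5⟩
      · exact Or.inr (Or.inl h5)
      · exact Or.inl h5
  · rw [hi, himg, I4_img_not _ _ _ (hnot i hi1 (by omega))]
    exact c1 u2 (Or.inr (Or.inr (Or.inl rfl))) _ (hwin i) (hnot i hi1 (by omega))
  · rw [hi, himg]
    rcases eq_or_lt_of_le hi2 with h | h
    · rw [h, I4_img_mem _ _ _ hW0x]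
      exact hz3
    · rw [I4_img_not _ _ _ (hnot i (by omega) h)]
      exact c1 u3 (Or.inr (Or.inr (Or.inr rfl))) _ (hwin i) (hnot i (by omega) h)

theorem I4 (hSHF : SHF_stmt) (hINS : INS_stmt) (hCN4 : CN4_stmt) : I4_stmt := by
  intro V E ends S F v a b x1 x2 u2 u3 hD hKO hS2
  have haS : a ∈ S.erase v := Finset.mem_erase.mpr ⟨hD.av, hD.aS⟩
  have hbS : b ∈ S.erase v := Finset.mem_erase.mpr ⟨hD.bv, hD.bS⟩
  have hcard : (S.erase v).card + 1 = S.card := Finset.card_erase_add_one hD.vS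
  have h2 : 2 ≤ (S.erase v).card := by
    have : 1 < (S.erase v).card := Finset.one_lt_card.mpr ⟨a, haS, b, hbS, hD.ab⟩
    omega
  obtain ⟨c, hper, hbij, hwin⟩ := hKO h2
  set m : ℤ := ((S.erase v).card : ℤ) - 1 with hm
  have hm1 : 1 ≤ m := by omega
  have hSm : (S.card : ℤ) - 1 = m + 1 := by omega
  have hx1F : x1 ∈ F := ((hD.all x1).mpr (Or.inl rfl)).1
  have hx1F' : x1 ∈ ((F \ {x2, u2, u3} : Finset E) : Set E) := by
    simp only [Finset.coe_sdiff, Set.mem_diff, Finset.mem_coe, Finset.mem_insert, Finset.mem_singleton]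
    have n12 := hD.n12
    have n13 := hD.n13
    have n14 := hD.n14
    tauto
  obtain ⟨j0, hj0, hcj0⟩ := hbij.surjOn hx1F'
  obtain ⟨s1, s2, s3⟩ := hSHF E (3 * m) (j0 + 1) c _ (by omega) hper hbij
  have hwin' : ∀ j, Con (Function.update ends x1 s(a, b)) (S.erase v) ((fun j => c (j + (j0 + 1))) '' Set.Ico j (j + m)) := by
    intro j
    have h := hwin (j + (j0 + 1))
    have h3 : (fun j => c (j + (j0 + 1))) '' Set.Ico j (j + m) = c '' Set.Ico (j + (j0 + 1)) (j + (j0 + 1) + m) := by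
      ext e
      constructor
      · rintro ⟨k, ⟨hk1, hk2⟩, rfl⟩
        exact ⟨k + (j0 + 1), ⟨by omega, by omega⟩, rfl⟩
      · rintro ⟨k, ⟨hk1, hk2⟩, rfl⟩
        exact ⟨k - (j0 + 1), ⟨by omega, by omega⟩, by simp⟩
    rw [h3]
    exact h
  have hper' : ∀ j, (fun j => c (j + (j0 + 1))) (j + 3 * m) = (fun j => c (j + (j0 + 1))) j := by
    intro j
    show c (j + 3 * m + (j0 + 1)) = c (j + (j0 + 1))
    rw [← s1 j]
    congr 1
    ring
  have hx1 : ∀ j, (fun j => c (j + (j0 + 1))) j = x1 ↔ 3 * m ∣ j + 1 := by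
    intro j
    show c (j + (j0 + 1)) = x1 ↔ _
    rw [← hcj0, s3]
    have : j + (j0 + 1) - j0 = j + 1 := by ring
    rw [this]
  obtain ⟨e, h1, h2', h3⟩ := I4_core V E ends S F v a b x1 x2 u2 u3 hINS hCN4 hD m hm1 _ hper' s2 hwin' hx1
  rw [← hSm] at h1 h2' h3
  exact ⟨e, h1, h2', h3⟩

end

end Pool.Agent.helper97.KR
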